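import Mathlib

/-! Mean value theorem for Dirichlet series with the Cauchy weight `T²/(T²+t²)` (exact, elementary).
-/

open MeasureTheory Set Filter Topology Complex
open scoped FourierTransform

namespace F4

/-- the Cauchy kernel is the Fourier transform of `exp (-T|x|)` -/
theorem fourier_exp_abs {T : ℝ} (hT : 0 < T) (w : ℝ) :
    𝓕 (fun x : ℝ => (Real.exp (-T * |x|) : ℂ)) w = ((2 * T / (T ^ 2 + (2 * Real.pi * w) ^ 2) : ℝ) : ℂ) := by
  rw [Real.fourier_real_eq_integral_exp_smul]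
  have h1 : IntegrableOn (fun v : ℝ => cexp (↑(-2 * Real.pi * v * w) * I) • ((Real.exp (-T * |v|) : ℝ) : ℂ)) (Ioi 0) := by
    refine (integrableOn_exp_mul_complex_Ioi (a := -T - 2 * Real.pi * w * I) (by simp [hT]) 0).congr_fun ?_ measurableSet_Ioi
    intro v hv
    simp only [smul_eq_mul, Complex.ofReal_exp]
    rw [abs_of_pos hv, ← Complex.exp_add]
    congr 1
    push_cast
    ring
  have h2 : IntegrableOn (fun v : ℝ => cexp (↑(-2 * Real.pi * v * w) * I) • ((Real.exp (-T * |v|) : ℝ) : ℂ)) (Iic 0) := by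
    refine (integrableOn_exp_mul_complex_Iic (a := T - 2 * Real.pi * w * I) (by simp [hT]) 0).congr_fun ?_ measurableSet_Iic
    intro v hv
    simp only [smul_eq_mul, Complex.ofReal_exp]
    rw [abs_of_nonpos hv, ← Complex.exp_add]
    congr 1
    push_cast
    ring
  rw [← intervalIntegral.integral_Iic_add_Ioi h2 h1]
  have e1 : ∫ v in Ioi (0:ℝ), cexp (↑(-2 * Real.pi * v * w) * I) • ((Real.exp (-T * |v|) : ℝ) : ℂ) = 1 / (T + 2 * Real.pi * w * I) := by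
    have := integral_exp_mul_complex_Ioi (a := -T - 2 * Real.pi * w * I) (by simp [hT]) 0
    rw [show (∫ v in Ioi (0:ℝ), cexp (↑(-2 * Real.pi * v * w) * I) • ((Real.exp (-T * |v|) : ℝ) : ℂ)) = ∫ x : ℝ in Ioi 0, cexp ((-T - 2 * Real.pi * w * I) * x) from ?_, this]
    · simp only [Complex.ofReal_zero, mul_zero, Complex.exp_zero]
      rw [show (-(T:ℂ) - 2 * Real.pi * w * I) = -(T + 2 * Real.pi * w * I) by ring, neg_div_neg_eq]
    · refine setIntegral_congr_fun measurableSet_Ioi ?_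
      intro v hv
      simp only [smul_eq_mul, Complex.ofReal_exp]
      rw [abs_of_pos hv, ← Complex.exp_add]
      congr 1
      push_cast
      ring
  have e2 : ∫ v in Iic (0:ℝ), cexp (↑(-2 * Real.pi * v * w) * I) • ((Real.exp (-T * |v|) : ℝ) : ℂ) = 1 / (T - 2 * Real.pi * w * I) := by
    have := integral_exp_mul_complex_Iic (a := T - 2 * Real.pi * w * I) (by simp [hT]) 0
    rw [show (∫ v in Iic (0:ℝ), cexp (↑(-2 * Real.pi * v * w) * I) • ((Real.exp (-T * |v|) : ℝ) : ℂ)) = ∫ x : ℝ in Iic 0, cexp ((T - 2 * Real.pi * w * I) * x) from ?_, this]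
    · simp only [Complex.ofReal_zero, mul_zero, Complex.exp_zero]
    · refine setIntegral_congr_fun measurableSet_Iic ?_
      intro v hv
      simp only [smul_eq_mul, Complex.ofReal_exp]
      rw [abs_of_nonpos hv, ← Complex.exp_add]
      congr 1
      push_cast
      ring
  rw [e1, e2]
  have n1 : (T:ℂ) + 2 * Real.pi * w * I ≠ 0 := by
    intro h
    have := congrArg Complex.re h
    simp at this
    exact hT.ne' this
  have n2 : (T:ℂ) - 2 * Real.pi * w * I ≠ 0 := by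
    intro h
    have := congrArg Complex.re h
    simp at this
    exact hT.ne' this
  have n3 : ((T:ℂ) ^ 2 + (2 * Real.pi * w) ^ 2) = (T + 2 * Real.pi * w * I) * (T - 2 * Real.pi * w * I) := by
    ring_nf
    rw [Complex.I_sq]
    ring
  push_cast
  rw [n3]
  field_simp
  ring

theorem integrable_cauchy {T : ℝ} (hT : 0 < T) : Integrable (fun t : ℝ => T ^ 2 / (T ^ 2 + t ^ 2)) := by
  have := (integrable_inv_one_add_sq.comp_mul_left' (R := T⁻¹) (inv_ne_zero hT.ne'))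
  refine this.congr (Eventually.of_forall fun t => ?_)
  simp only
  field_simp

/-- `∫ e^{-ixt} T²/(T²+t²) dt = π T e^{-T|x|}` -/
theorem cauchy_ft {T : ℝ} (hT : 0 < T) (x : ℝ) :
    ∫ t : ℝ, cexp (-(x * t * I)) * ((T ^ 2 / (T ^ 2 + t ^ 2) : ℝ) : ℂ) = ((Real.pi * T * Real.exp (-T * |x|) : ℝ) : ℂ) := by
  have hc : Continuous (fun x : ℝ => (Real.exp (-T * |x|) : ℂ)) := by fun_prop
  have hi : Integrable (fun x : ℝ => (Real.exp (-T * |x|) : ℂ)) := by
    apply Integrable.ofReal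
    have h1 : IntegrableOn (fun v : ℝ => Real.exp (-T * |v|)) (Ioi 0) := by
      refine (integrableOn_exp_mul_Ioi (a := -T) (by simp [hT]) 0).congr_fun ?_ measurableSet_Ioi
      intro v hv
      simp only [abs_of_pos (show 0 < v from hv)]
    have h2 : IntegrableOn (fun v : ℝ => Real.exp (-T * |v|)) (Iic 0) := by
      refine (integrableOn_exp_mul_Iic (a := T) hT 0).congr_fun ?_ measurableSet_Iic
      intro v hv
      simp only [abs_of_nonpos (show v ≤ 0 from hv)]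
      congr 1
      ring
    rw [← integrableOn_univ, ← Iic_union_Ioi (a := (0:ℝ))]
    exact h2.union h1
  have hF : 𝓕 (fun x : ℝ => (Real.exp (-T * |x|) : ℂ)) = fun w => ((2 * T / (T ^ 2 + (2 * Real.pi * w) ^ 2) : ℝ) : ℂ) :=
    funext fun w => fourier_exp_abs hT w
  have hFi : Integrable (𝓕 (fun x : ℝ => (Real.exp (-T * |x|) : ℂ))) := by
    rw [hF]
    have := ((integrable_cauchy hT).comp_mul_left' (R := 2 * Real.pi) (by positivity)).const_mul (2 / T)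
    have h2 : Integrable (fun w : ℝ => 2 * T / (T ^ 2 + (2 * Real.pi * w) ^ 2)) := by
      refine this.congr (Eventually.of_forall fun t => ?_)
      simp only
      field_simp
    exact h2.ofReal
  have h := hc.fourierInv_fourier_eq hi hFi
  have h2 := congrFun h (-x)
  rw [Real.fourierInv_eq'] at h2
  rw [hF] at h2
  simp only [abs_neg] at h2
  have h3 := Measure.integral_comp_mul_left (fun t : ℝ => cexp (-(x * t * I)) * ((T ^ 2 / (T ^ 2 + t ^ 2) : ℝ) : ℂ)) (2 * Real.pi)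
  have h4 : ∫ t : ℝ, cexp (-(x * (2 * Real.pi * t : ℝ) * I)) * ((T ^ 2 / (T ^ 2 + (2 * Real.pi * t) ^ 2) : ℝ) : ℂ) = (T / 2 : ℝ) * (Real.exp (-T * |x|) : ℂ) := by
    rw [← h2, ← integral_const_mul]
    refine integral_congr_ae (Eventually.of_forall fun t => ?_)
    simp only [smul_eq_mul, RCLike.inner_apply, conj_trivial]
    rw [show (((T / 2 : ℝ)) : ℂ) * (cexp (↑(2 * Real.pi * (-x * t)) * I) * ((2 * T / (T ^ 2 + (2 * Real.pi * t) ^ 2) : ℝ) : ℂ)) =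
      cexp (↑(2 * Real.pi * (-x * t)) * I) * (((T / 2 * (2 * T / (T ^ 2 + (2 * Real.pi * t) ^ 2)) : ℝ)) : ℂ) by push_cast; ring]
    congr 1
    · congr 1
      push_cast
      ring
    · congr 1
      field_simp
  rw [h4] at h3
  rw [abs_of_pos (show (0:ℝ) < (2 * Real.pi)⁻¹ by positivity), Complex.real_smul] at h3
  have h5 : ∫ t : ℝ, cexp (-(x * t * I)) * ((T ^ 2 / (T ^ 2 + t ^ 2) : ℝ) : ℂ) = (2 * Real.pi : ℝ) * ((T / 2 : ℝ) * (Real.exp (-T * |x|) : ℂ)) := by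
    rw [h3, ← mul_assoc]
    rw [← Complex.ofReal_mul, mul_inv_cancel₀ (by positivity), Complex.ofReal_one, one_mul]
  rw [h5]
  push_cast
  ring

/-- the kernel `(min/max)^T` -/
noncomputable def K (T : ℝ) (m n : ℕ) : ℝ := Real.exp (-T * |Real.log m - Real.log n|)

theorem K_nonneg (T : ℝ) (m n : ℕ) : 0 ≤ K T m n := (Real.exp_pos _).le

theorem K_symm (T : ℝ) (m n : ℕ) : K T m n = K T n m := by
  unfold K
  rw [abs_sub_comm]

theorem K_le_eq {T : ℝ} {m n : ℕ} (hm : 1 ≤ m) (h : m ≤ n) : K T m n = (m : ℝ) ^ T / (n : ℝ) ^ T := by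
  have hm' : (0:ℝ) < m := by exact_mod_cast hm
  have hn' : (0:ℝ) < n := by exact_mod_cast (lt_of_lt_of_le hm h)
  have hl : Real.log m ≤ Real.log n := Real.log_le_log hm' (by exact_mod_cast h)
  unfold K
  rw [abs_of_nonpos (by linarith), Real.rpow_def_of_pos hm', Real.rpow_def_of_pos hn', ← Real.exp_sub]
  congr 1
  ring

theorem K_small {T : ℝ} (hT : 2 ≤ T) {m n : ℕ} (hm : 1 ≤ m) (h : m + 1 ≤ n) :
    K T m n ≤ (((m + 1 : ℕ) : ℝ) ^ (T + 1) - (m : ℝ) ^ (T + 1)) / ((T + 1) * (n : ℝ) ^ T) := by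
  have hm' : (0:ℝ) < m := by exact_mod_cast hm
  have hn' : (0:ℝ) < n := by exact_mod_cast (lt_of_lt_of_le hm (by omega : m ≤ n))
  rw [K_le_eq hm (by omega)]
  have hb := one_add_mul_self_le_rpow_one_add (s := 1 / (m : ℝ)) (by have := (by positivity : 0 ≤ 1 / (m:ℝ)); linarith) (p := T + 1) (by linarith)
  have e1 : (((m + 1 : ℕ) : ℝ)) ^ (T + 1) = (m : ℝ) ^ (T + 1) * (1 + 1 / (m : ℝ)) ^ (T + 1) := by
    rw [← Real.mul_rpow hm'.le (by positivity)]
    congr 1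
    push_cast
    field_simp
  have e2 : (m : ℝ) ^ (T + 1) = (m : ℝ) ^ T * m := by
    rw [Real.rpow_add hm', Real.rpow_one]
  have hmT : 0 < (m : ℝ) ^ T := Real.rpow_pos_of_pos hm' _
  have hnT : 0 < (n : ℝ) ^ T := Real.rpow_pos_of_pos hn' _
  rw [div_le_div_iff₀ hnT (by positivity)]
  have e3 : (m : ℝ) ^ (T + 1) * (1 + (T + 1) * (1 / (m : ℝ))) = (m : ℝ) ^ (T + 1) + (T + 1) * (m : ℝ) ^ T := by
    rw [e2]
    field_simp
  have e4 : (T + 1) * (m : ℝ) ^ T ≤ ((m + 1 : ℕ) : ℝ) ^ (T + 1) - (m : ℝ) ^ (T + 1) := by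
    rw [e1]
    have := mul_le_mul_of_nonneg_left hb (Real.rpow_nonneg hm'.le (T + 1))
    linarith
  calc (m : ℝ) ^ T * ((T + 1) * (n : ℝ) ^ T) = ((T + 1) * (m : ℝ) ^ T) * (n : ℝ) ^ T := by ring
    _ ≤ _ := mul_le_mul_of_nonneg_right e4 hnT.le

theorem K_large {T : ℝ} (hT : 2 ≤ T) {k n : ℕ} (hn : 1 ≤ n) (h : n ≤ k) :
    K T (k + 1) n ≤ (n : ℝ) ^ T * ((k : ℝ) ^ (1 - T) - ((k + 1 : ℕ) : ℝ) ^ (1 - T)) / (T - 1) := by
  have hn' : (0:ℝ) < n := by exact_mod_cast hn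
  have hk' : (0:ℝ) < k := by exact_mod_cast (lt_of_lt_of_le hn h)
  have hk1 : (0:ℝ) < ((k + 1 : ℕ) : ℝ) := by positivity
  rw [K_symm, K_le_eq hn (by omega)]
  have hb := one_add_mul_self_le_rpow_one_add (s := 1 / (k : ℝ)) (by have := (by positivity : 0 ≤ 1 / (k:ℝ)); linarith) (p := T - 1) (by linarith)
  have hP : 0 < ((k + 1 : ℕ) : ℝ) ^ T := Real.rpow_pos_of_pos hk1 _
  have e1 : (k : ℝ) ^ (1 - T) = (((k + 1 : ℕ) : ℝ)) ^ (1 - T) * (1 + 1 / (k : ℝ)) ^ (T - 1) := by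
    have : (1 + 1 / (k : ℝ)) = ((k + 1 : ℕ) : ℝ) / k := by
      push_cast
      field_simp
    rw [this, Real.div_rpow hk1.le hk'.le, show (1 - T) = -(T - 1) by ring, Real.rpow_neg hk1.le, Real.rpow_neg hk'.le]
    have h1 : 0 < ((k + 1 : ℕ) : ℝ) ^ (T - 1) := Real.rpow_pos_of_pos hk1 _
    field_simp
  have e2 : (((k + 1 : ℕ) : ℝ)) ^ (1 - T) = ((k + 1 : ℕ) : ℝ) / (((k + 1 : ℕ) : ℝ)) ^ T := by
    rw [Real.rpow_sub hk1, Real.rpow_one]
  have e3 : (T - 1) / (((k + 1 : ℕ) : ℝ)) ^ T ≤ (k : ℝ) ^ (1 - T) - ((k + 1 : ℕ) : ℝ) ^ (1 - T) := by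
    have h1 : 0 < (((k + 1 : ℕ) : ℝ)) ^ (1 - T) := Real.rpow_pos_of_pos hk1 _
    have h2 : (T - 1) / (((k + 1 : ℕ) : ℝ)) ^ T = (((k + 1 : ℕ) : ℝ)) ^ (1 - T) * ((T - 1) * (1 / ((k + 1 : ℕ) : ℝ))) := by
      rw [e2]
      field_simp
    rw [h2]
    have h3 : (T - 1) * (1 / ((k + 1 : ℕ) : ℝ)) ≤ (T - 1) * (1 / (k : ℝ)) := by
      apply mul_le_mul_of_nonneg_left _ (by linarith)
      apply one_div_le_one_div_of_le hk'
      push_cast
      linarith
    have h4 : (((k + 1 : ℕ) : ℝ)) ^ (1 - T) * (1 + (T - 1) * (1 / ((k + 1 : ℕ) : ℝ))) ≤ (k : ℝ) ^ (1 - T) := by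
      rw [e1]
      apply mul_le_mul_of_nonneg_left _ h1.le
      linarith
    linarith
  have hT1 : 0 < T - 1 := by linarith
  rw [le_div_iff₀ hT1]
  calc (n : ℝ) ^ T / ((k + 1 : ℕ) : ℝ) ^ T * (T - 1) = (n : ℝ) ^ T * ((T - 1) / ((k + 1 : ℕ) : ℝ) ^ T) := by ring
    _ ≤ _ := mul_le_mul_of_nonneg_left e3 (Real.rpow_nonneg hn'.le _)

theorem K_sum_lt {T : ℝ} (hT : 2 ≤ T) {n : ℕ} (N : ℕ) (h : N + 1 ≤ n) :
    ∑ m ∈ Finset.Icc 1 N, K T m n ≤ (((N + 1 : ℕ) : ℝ) ^ (T + 1)) / ((T + 1) * (n : ℝ) ^ T) := by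
  induction N with
  | zero =>
    simp only [Finset.Icc_eq_empty_of_lt (show 0 < 1 by norm_num), Finset.sum_empty]
    positivity
  | succ N ih =>
    rw [Finset.sum_Icc_succ_top (by omega)]
    have h1 := ih (by omega)
    have h2 := K_small hT (m := N + 1) (n := n) (by omega) (by omega)
    calc _ ≤ _ := add_le_add h1 h2
      _ = _ := by
        rw [← add_div]
        congr 1
        ring

theorem K_sum {T : ℝ} (hT : 2 ≤ T) {n : ℕ} (hn : 1 ≤ n) (N : ℕ) :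
    ∑ m ∈ Finset.Icc 1 N, K T m n ≤ 1 + 3 * n / T := by
  have hn' : (0:ℝ) < n := by exact_mod_cast hn
  have hnT : 0 < (n : ℝ) ^ T := Real.rpow_pos_of_pos hn' _
  have key : ∀ j : ℕ, ∑ m ∈ Finset.Icc 1 (n + j), K T m n ≤
      n / (T + 1) + 1 + (n : ℝ) ^ T * ((n : ℝ) ^ (1 - T) - ((n + j : ℕ) : ℝ) ^ (1 - T)) / (T - 1) := by
    intro j
    induction j with
    | zero =>
      obtain ⟨k, rfl⟩ : ∃ k, n = k + 1 := ⟨n - 1, by omega⟩
      rw [add_zero, Finset.sum_Icc_succ_top (by omega)]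
      have h1 := K_sum_lt hT (n := k + 1) k le_rfl
      have h2 : K T (k + 1) (k + 1) = 1 := by unfold K; simp
      rw [h2, sub_self, mul_zero, zero_div, add_zero]
      have h3 : (((k + 1 : ℕ) : ℝ) ^ (T + 1)) / ((T + 1) * ((k + 1 : ℕ) : ℝ) ^ T) = ((k + 1 : ℕ) : ℝ) / (T + 1) := by
        rw [Real.rpow_add hn', Real.rpow_one]
        field_simp
      rw [h3] at h1
      linarith
    | succ j ih =>
      rw [← add_assoc, Finset.sum_Icc_succ_top (by omega)]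
      have h2 := K_large hT (k := n + j) (n := n) hn (by omega)
      calc _ ≤ _ := add_le_add ih h2
        _ = _ := by
          rw [add_assoc (_ + _) _ _, ← add_div]
          congr 2
          ring
  have hmono : ∑ m ∈ Finset.Icc 1 N, K T m n ≤ ∑ m ∈ Finset.Icc 1 (n + N), K T m n :=
    Finset.sum_le_sum_of_subset_of_nonneg (Finset.Icc_subset_Icc_right (by omega)) (fun _ _ _ => K_nonneg _ _ _)
  refine hmono.trans ((key N).trans ?_)
  have h1 : (n : ℝ) ^ T * ((n : ℝ) ^ (1 - T) - ((n + N : ℕ) : ℝ) ^ (1 - T)) / (T - 1) ≤ n / (T - 1) := by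
    apply div_le_div_of_nonneg_right _ (by linarith)
    have h2 : (n : ℝ) ^ T * (n : ℝ) ^ (1 - T) = n := by
      rw [← Real.rpow_add hn']
      simp
    have h3 : 0 ≤ (n : ℝ) ^ T * ((n + N : ℕ) : ℝ) ^ (1 - T) := by positivity
    nlinarith
  have h4 : (n : ℝ) / (T + 1) ≤ n / T := by
    apply div_le_div_of_nonneg_left hn'.le (by linarith) (by linarith)
  have h5 : (n : ℝ) / (T - 1) ≤ 2 * n / T := by
    rw [div_le_div_iff₀ (by linarith) (by linarith)]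
    nlinarith
  have h6 : 3 * (n : ℝ) / T = n / T + 2 * n / T := by ring
  linarith

theorem K_sum_finset {T : ℝ} (hT : 2 ≤ T) {n : ℕ} (hn : 1 ≤ n) (s : Finset ℕ) (hs : ∀ m ∈ s, 1 ≤ m) :
    ∑ m ∈ s, K T m n ≤ 1 + 3 * n / T := by
  refine le_trans ?_ (K_sum hT hn (s.sup id))
  refine Finset.sum_le_sum_of_subset_of_nonneg ?_ (fun _ _ _ => K_nonneg _ _ _)
  intro m hm
  rw [Finset.mem_Icc]
  exact ⟨hs m hm, Finset.le_sup (f := id) hm⟩

theorem natpow_eq {n : ℕ} (hn : 1 ≤ n) (t : ℝ) : (n : ℂ) ^ (-(t * I)) = cexp (-(Real.log n * t * I)) := by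
  rw [Complex.cpow_def_of_ne_zero (by exact_mod_cast (by omega : n ≠ 0)), ← Complex.natCast_log]
  congr 1
  ring

theorem natpow_conj {n : ℕ} (hn : 1 ≤ n) (t : ℝ) : (starRingEnd ℂ) ((n : ℂ) ^ (-(t * I))) = cexp (Real.log n * t * I) := by
  rw [natpow_eq hn, ← Complex.exp_conj]
  congr 1
  simp only [map_neg, map_mul, Complex.conj_ofReal, Complex.conj_I]
  ring

/-- finite form -/
theorem mvt_fin {T : ℝ} (hT : 2 ≤ T) (s : Finset ℕ) (hs : ∀ m ∈ s, 1 ≤ m) (a : ℕ → ℂ) :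
    ∫ t : ℝ, ‖∑ n ∈ s, a n * (n : ℂ) ^ (-(t * I))‖ ^ 2 * (T ^ 2 / (T ^ 2 + t ^ 2)) ≤
      10 * ∑ n ∈ s, ‖a n‖ ^ 2 * (T + n) := by
  have hT0 : 0 < T := by linarith
  have h1 : ((∫ t : ℝ, ‖∑ n ∈ s, a n * (n : ℂ) ^ (-(t * I))‖ ^ 2 * (T ^ 2 / (T ^ 2 + t ^ 2)) : ℝ) : ℂ) =
      ∑ m ∈ s, ∑ n ∈ s, a m * (starRingEnd ℂ) (a n) * ((Real.pi * T * K T m n : ℝ) : ℂ) := by
    rw [← integral_complex_ofReal]
    have h2 : ∀ t : ℝ, ((‖∑ n ∈ s, a n * (n : ℂ) ^ (-(t * I))‖ ^ 2 * (T ^ 2 / (T ^ 2 + t ^ 2)) : ℝ) : ℂ) =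
        ∑ m ∈ s, ∑ n ∈ s, a m * (starRingEnd ℂ) (a n) *
          (cexp (-(((Real.log m - Real.log n : ℝ) : ℂ) * t * I)) * ((T ^ 2 / (T ^ 2 + t ^ 2) : ℝ) : ℂ)) := by
      intro t
      rw [Complex.ofReal_mul, Complex.ofReal_pow, ← Complex.mul_conj', map_sum, Finset.sum_mul_sum, Finset.sum_mul]
      refine Finset.sum_congr rfl fun m hm => ?_
      rw [Finset.sum_mul]
      refine Finset.sum_congr rfl fun n hn => ?_
      rw [map_mul, natpow_conj (hs n hn), natpow_eq (hs m hm)]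
      have : cexp (-(((Real.log m - Real.log n : ℝ) : ℂ) * t * I)) = cexp (-(Real.log m * t * I)) * cexp (Real.log n * t * I) := by
        rw [← Complex.exp_add]
        congr 1
        push_cast
        ring
      rw [this]
      ring
    have hint : ∀ x : ℝ, Integrable (fun t : ℝ => cexp (-((x : ℂ) * t * I)) * ((T ^ 2 / (T ^ 2 + t ^ 2) : ℝ) : ℂ)) := by
      intro x
      refine (integrable_cauchy hT0).ofReal.bdd_mul (c := 1) (by fun_prop) (Eventually.of_forall fun t => ?_)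
      rw [show -((x : ℂ) * t * I) = ((-(x * t) : ℝ) : ℂ) * I by push_cast; ring, Complex.norm_exp_ofReal_mul_I]
    simp_rw [h2]
    rw [integral_finsetSum _ fun m _ => integrable_finsetSum _ fun n _ => (hint _).const_mul _]
    refine Finset.sum_congr rfl fun m hm => ?_
    rw [integral_finsetSum _ fun n _ => (hint _).const_mul _]
    refine Finset.sum_congr rfl fun n hn => ?_
    rw [integral_const_mul, cauchy_ft hT0]
    rfl
  have h0 : 0 ≤ ∫ t : ℝ, ‖∑ n ∈ s, a n * (n : ℂ) ^ (-(t * I))‖ ^ 2 * (T ^ 2 / (T ^ 2 + t ^ 2)) :=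
    integral_nonneg fun t => by positivity
  have h3 : ∫ t : ℝ, ‖∑ n ∈ s, a n * (n : ℂ) ^ (-(t * I))‖ ^ 2 * (T ^ 2 / (T ^ 2 + t ^ 2)) =
      ‖∑ m ∈ s, ∑ n ∈ s, a m * (starRingEnd ℂ) (a n) * ((Real.pi * T * K T m n : ℝ) : ℂ)‖ := by
    rw [← h1, Complex.norm_real, Real.norm_of_nonneg h0]
  rw [h3]
  have h4 : ‖∑ m ∈ s, ∑ n ∈ s, a m * (starRingEnd ℂ) (a n) * ((Real.pi * T * K T m n : ℝ) : ℂ)‖ ≤
      ∑ m ∈ s, ∑ n ∈ s, (Real.pi * T * K T m n) * ((‖a m‖ ^ 2 + ‖a n‖ ^ 2) / 2) := by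
    refine (norm_sum_le _ _).trans (Finset.sum_le_sum fun m _ => (norm_sum_le _ _).trans (Finset.sum_le_sum fun n _ => ?_))
    have hK := K_nonneg T m n
    rw [norm_mul, norm_mul, RCLike.norm_conj, Complex.norm_real, Real.norm_of_nonneg (by positivity)]
    have : ‖a m‖ * ‖a n‖ ≤ (‖a m‖ ^ 2 + ‖a n‖ ^ 2) / 2 := by nlinarith [sq_nonneg (‖a m‖ - ‖a n‖)]
    calc _ = (Real.pi * T * K T m n) * (‖a m‖ * ‖a n‖) := by ring
      _ ≤ _ := mul_le_mul_of_nonneg_left this (by positivity)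
  refine h4.trans ?_
  have h5 : ∑ m ∈ s, ∑ n ∈ s, (Real.pi * T * K T m n) * ((‖a m‖ ^ 2 + ‖a n‖ ^ 2) / 2) =
      ∑ n ∈ s, Real.pi * T * ‖a n‖ ^ 2 * ∑ m ∈ s, K T m n := by
    have e1 : ∑ m ∈ s, ∑ n ∈ s, (Real.pi * T * K T m n) * ((‖a m‖ ^ 2 + ‖a n‖ ^ 2) / 2) =
        ∑ m ∈ s, ∑ n ∈ s, (Real.pi * T * K T m n) * (‖a m‖ ^ 2 / 2) + ∑ m ∈ s, ∑ n ∈ s, (Real.pi * T * K T m n) * (‖a n‖ ^ 2 / 2) := by
      rw [← Finset.sum_add_distrib]
      refine Finset.sum_congr rfl fun m _ => ?_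
      rw [← Finset.sum_add_distrib]
      refine Finset.sum_congr rfl fun n _ => ?_
      ring
    have e2 : ∑ m ∈ s, ∑ n ∈ s, (Real.pi * T * K T m n) * (‖a n‖ ^ 2 / 2) = ∑ m ∈ s, ∑ n ∈ s, (Real.pi * T * K T m n) * (‖a m‖ ^ 2 / 2) := by
      rw [Finset.sum_comm]
      refine Finset.sum_congr rfl fun m _ => Finset.sum_congr rfl fun n _ => ?_
      rw [K_symm]
    rw [e1, e2, ← two_mul, Finset.mul_sum]
    refine Finset.sum_congr rfl fun n _ => ?_
    rw [Finset.mul_sum, Finset.mul_sum]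
    refine Finset.sum_congr rfl fun m _ => ?_
    rw [K_symm]
    ring
  rw [h5, Finset.mul_sum]
  refine Finset.sum_le_sum fun n hn => ?_
  have h6 := K_sum_finset hT (hs n hn) s hs
  have hp := Real.pi_lt_d2
  have hp0 := Real.pi_pos
  calc Real.pi * T * ‖a n‖ ^ 2 * ∑ m ∈ s, K T m n ≤ Real.pi * T * ‖a n‖ ^ 2 * (1 + 3 * n / T) :=
        mul_le_mul_of_nonneg_left h6 (by positivity)
    _ = Real.pi * ‖a n‖ ^ 2 * (T + 3 * n) := by field_simp
    _ ≤ 10 * (‖a n‖ ^ 2 * (T + n)) := by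
      have h7 : Real.pi * (T + 3 * n) ≤ 10 * (T + n) := by
        have : (0:ℝ) ≤ n := by positivity
        nlinarith
      have := mul_le_mul_of_nonneg_left h7 (sq_nonneg ‖a n‖)
      linarith

theorem norm_term {a : ℕ → ℂ} (h0 : a 0 = 0) (n : ℕ) (t : ℝ) : ‖a n * (n : ℂ) ^ (-(t * I))‖ = ‖a n‖ := by
  rcases Nat.eq_zero_or_pos n with rfl | hn
  · simp [h0]
  · rw [norm_mul, natpow_eq hn, show -((Real.log n : ℂ) * t * I) = ((-(Real.log n * t) : ℝ) : ℂ) * I by push_cast; ring,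
      Complex.norm_exp_ofReal_mul_I, mul_one]

theorem continuous_term {a : ℕ → ℂ} (h0 : a 0 = 0) (n : ℕ) : Continuous (fun t : ℝ => a n * (n : ℂ) ^ (-(t * I))) := by
  rcases Nat.eq_zero_or_pos n with rfl | hn
  · simp only [h0, zero_mul]
    exact continuous_const
  · simp_rw [natpow_eq hn]
    fun_prop

theorem continuous_series {a : ℕ → ℂ} (h0 : a 0 = 0) (h1 : Summable fun n => ‖a n‖) :
    Continuous (fun t : ℝ => ∑' n, a n * (n : ℂ) ^ (-(t * I))) :=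
  continuous_tsum (fun n => continuous_term h0 n) h1 (fun n t => (norm_term h0 n t).le)

theorem summable_term {a : ℕ → ℂ} (h0 : a 0 = 0) (h1 : Summable fun n => ‖a n‖) (t : ℝ) :
    Summable (fun n => a n * (n : ℂ) ^ (-(t * I))) := by
  apply Summable.of_norm
  simp_rw [norm_term h0]
  exact h1

theorem series_le {a : ℕ → ℂ} (h0 : a 0 = 0) (h1 : Summable fun n => ‖a n‖) (t : ℝ) :
    ‖∑' n, a n * (n : ℂ) ^ (-(t * I))‖ ≤ ∑' n, ‖a n‖ := by
  refine (norm_tsum_le_tsum_norm (by simp_rw [norm_term h0]; exact h1)).trans (le_of_eq ?_)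
  simp_rw [norm_term h0]

theorem integrable_series {a : ℕ → ℂ} (h0 : a 0 = 0) (h1 : Summable fun n => ‖a n‖) {T : ℝ} (hT : 0 < T) :
    Integrable (fun t : ℝ => ‖∑' n, a n * (n : ℂ) ^ (-(t * I))‖ ^ 2 * (T ^ 2 / (T ^ 2 + t ^ 2))) := by
  refine (integrable_cauchy hT).bdd_mul (c := (∑' n, ‖a n‖) ^ 2) ((continuous_series h0 h1).norm.pow 2).aestronglyMeasurable
    (Eventually.of_forall fun t => ?_)
  rw [Real.norm_of_nonneg (by positivity)]
  exact pow_le_pow_left₀ (norm_nonneg _) (series_le h0 h1 t) 2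

/-- **mean value theorem** for Dirichlet series -/
theorem mvt {a : ℕ → ℂ} (h0 : a 0 = 0) (h1 : Summable fun n => ‖a n‖) (h2 : Summable fun n => ‖a n‖ ^ 2 * (n : ℝ))
    {T : ℝ} (hT : 2 ≤ T) :
    ∫ t : ℝ, ‖∑' n, a n * (n : ℂ) ^ (-(t * I))‖ ^ 2 * (T ^ 2 / (T ^ 2 + t ^ 2)) ≤
      10 * ∑' n, ‖a n‖ ^ 2 * (T + n) := by
  have hT0 : 0 < T := by linarith
  have hs2 : Summable fun n => ‖a n‖ ^ 2 * (T + n) := by
    have hb : Summable fun n => (T + 1) * (‖a n‖ ^ 2 * (n : ℝ)) := h2.mul_left _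
    refine Summable.of_nonneg_of_le (fun n => by positivity) (fun n => ?_) hb
    rcases Nat.eq_zero_or_pos n with rfl | hn
    · simp [h0]
    · have : (1:ℝ) ≤ n := by exact_mod_cast hn
      have h3 : T + n ≤ (T + 1) * n := by nlinarith
      calc ‖a n‖ ^ 2 * (T + n) ≤ ‖a n‖ ^ 2 * ((T + 1) * n) := mul_le_mul_of_nonneg_left h3 (by positivity)
        _ = _ := by ring
  have hlim : Tendsto (fun N : ℕ => ∫ t : ℝ, ‖∑ n ∈ Finset.range N, a n * (n : ℂ) ^ (-(t * I))‖ ^ 2 * (T ^ 2 / (T ^ 2 + t ^ 2)))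
      atTop (𝓝 (∫ t : ℝ, ‖∑' n, a n * (n : ℂ) ^ (-(t * I))‖ ^ 2 * (T ^ 2 / (T ^ 2 + t ^ 2)))) := by
    refine tendsto_integral_of_dominated_convergence (fun t => (∑' n, ‖a n‖) ^ 2 * (T ^ 2 / (T ^ 2 + t ^ 2))) ?_
      ((integrable_cauchy hT0).const_mul _) ?_ ?_
    · intro N
      have hc : Continuous (fun t : ℝ => ∑ n ∈ Finset.range N, a n * (n : ℂ) ^ (-(t * I))) :=
        continuous_finsetSum _ fun n _ => continuous_term h0 n
      exact ((hc.norm.pow 2).aestronglyMeasurable).mul (integrable_cauchy hT0).aestronglyMeasurable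
    · intro N
      refine Eventually.of_forall fun t => ?_
      rw [Real.norm_of_nonneg (by positivity)]
      apply mul_le_mul_of_nonneg_right _ (by positivity)
      refine pow_le_pow_left₀ (norm_nonneg _) ?_ 2
      refine (norm_sum_le _ _).trans ?_
      simp_rw [norm_term h0]
      exact h1.sum_le_tsum _ (fun _ _ => norm_nonneg _)
    · refine Eventually.of_forall fun t => ?_
      exact (((summable_term h0 h1 t).hasSum.tendsto_sum_nat.norm).pow 2).mul_const _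
  refine le_of_tendsto' hlim fun N => ?_
  have e : ∀ t : ℝ, ∑ n ∈ Finset.range N, a n * (n : ℂ) ^ (-(t * I)) =
      ∑ n ∈ (Finset.range N).filter (fun n => 1 ≤ n), a n * (n : ℂ) ^ (-(t * I)) := by
    intro t
    rw [Finset.sum_filter]
    refine Finset.sum_congr rfl fun n _ => ?_
    split_ifs with h
    · rfl
    · have : n = 0 := by omega
      subst this
      simp [h0]
  simp_rw [e]
  refine (mvt_fin hT _ (fun m hm => (Finset.mem_filter.mp hm).2) a).trans ?_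
  exact mul_le_mul_of_nonneg_left (hs2.sum_le_tsum _ (fun _ _ => by positivity)) (by norm_num)

/-- on the interval `[-R, R]`, any `R` (the weight costs `1 + (R/T)²`) -/
theorem mvt_interval {a : ℕ → ℂ} (h0 : a 0 = 0) (h1 : Summable fun n => ‖a n‖) (h2 : Summable fun n => ‖a n‖ ^ 2 * (n : ℝ))
    {T : ℝ} (hT : 2 ≤ T) {x y : ℝ} (hxy : x ≤ y) {R : ℝ} (hx : -R ≤ x) (hy : y ≤ R) :
    ∫ t in x..y, ‖∑' n, a n * (n : ℂ) ^ (-(t * I))‖ ^ 2 ≤
      10 * (1 + (R / T) ^ 2) * ∑' n, ‖a n‖ ^ 2 * (T + n) := by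
  have hT0 : 0 < T := by linarith
  have hI := integrable_series h0 h1 hT0
  have h3 : ∫ t in x..y, ‖∑' n, a n * (n : ℂ) ^ (-(t * I))‖ ^ 2 ≤
      ∫ t in x..y, (1 + (R / T) ^ 2) * (‖∑' n, a n * (n : ℂ) ^ (-(t * I))‖ ^ 2 * (T ^ 2 / (T ^ 2 + t ^ 2))) := by
    refine intervalIntegral.integral_mono_on hxy (((continuous_series h0 h1).norm.pow 2).intervalIntegrable _ _)
      ((hI.const_mul _).intervalIntegrable) fun t ht => ?_
    have ht2 : t ^ 2 ≤ R ^ 2 := by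
      have h4 : -R ≤ t := hx.trans ht.1
      have h5 : t ≤ R := ht.2.trans hy
      nlinarith
    have h6 : 1 ≤ (1 + (R / T) ^ 2) * (T ^ 2 / (T ^ 2 + t ^ 2)) := by
      rw [← mul_div_assoc, le_div_iff₀ (by positivity)]
      have : (R / T) ^ 2 * T ^ 2 = R ^ 2 := by field_simp
      nlinarith
    have h7 := mul_le_mul_of_nonneg_left h6 (sq_nonneg ‖∑' n, a n * (n : ℂ) ^ (-(t * I))‖)
    calc _ = ‖∑' n, a n * (n : ℂ) ^ (-(t * I))‖ ^ 2 * 1 := by ring
      _ ≤ _ := h7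
      _ = _ := by ring
  refine h3.trans ?_
  rw [intervalIntegral.integral_const_mul, intervalIntegral.integral_of_le hxy]
  have h4 := setIntegral_le_integral hI (Eventually.of_forall fun t => by positivity) (s := Ioc x y)
  calc _ ≤ (1 + (R / T) ^ 2) * (10 * ∑' n, ‖a n‖ ^ 2 * (T + n)) :=
        mul_le_mul_of_nonneg_left (h4.trans (mvt h0 h1 h2 hT)) (by positivity)
    _ = _ := by ring

end F4
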